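import Mathlib

/-!
# The directed edge reinforced random walk: definitions

`cr p n x y` is the crossing number of `x → y` at time `n` along the path `p`, `pr G β p n y` the probability
that the walk steps to `y` at time `n`, given the path `p` up to time `n`; `IsWalk` is the walk of the problem.
-/

set_option autoImplicit false

namespace Pool.Agent.Lib.MP_c171f5_pr.AM

open MeasureTheory Filter Set
open scoped ENNReal

variable {V : Type*}

open Classical in
/-- the net number of jumps from `x` to `y` among the first `n` jumps of the path `p` -/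
noncomputable def cr (p : ℕ → V) (n : ℕ) (x y : V) : ℤ :=
  (((Finset.range n).filter fun k => p k = x ∧ p (k + 1) = y).card : ℤ) -
    (((Finset.range n).filter fun k => p k = y ∧ p (k + 1) = x).card : ℤ)

open Classical in
/-- the probability that the walk moves to `y` at time `n`, given its path `p 0, …, p n` -/
noncomputable def pr (G : SimpleGraph V) [G.LocallyFinite] (β : ℝ) (p : ℕ → V) (n : ℕ) (y : V) : ℝ :=
  if G.Adj (p n) y then
    Real.exp (β * cr p n (p n) y) / ∑ z ∈ G.neighborFinset (p n), Real.exp (β * cr p n (p n) z)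
  else 0

/-- `X` is the directed edge reinforced random walk on `G` with reinforcement strength `β`, started at `v` -/
structure IsWalk (G : SimpleGraph V) [G.LocallyFinite] (β : ℝ) (v : V) {Ω : Type*} [MeasurableSpace Ω]
    (μ : Measure Ω) (X : ℕ → Ω → V) : Prop where
  prob : IsProbabilityMeasure μ
  meas : ∀ n x, MeasurableSet {ω | X n ω = x}
  start : ∀ᵐ ω ∂μ, X 0 ω = v
  step : ∀ (p : ℕ → V) (n : ℕ), μ {ω | ∀ i ≤ n + 1, X i ω = p i} =
    μ {ω | ∀ i ≤ n, X i ω = p i} * ENNReal.ofReal (pr G β p n (p (n + 1)))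

/-- `u 0, …, u (l - 1)` is a circuit of `G` -/
structure IsCircuit (G : SimpleGraph V) (l : ℕ) (u : ℕ → V) : Prop where
  three : 3 ≤ l
  inj : ∀ i < l, ∀ j < l, u i = u j → i = j
  adj : ∀ i, i + 1 < l → G.Adj (u i) (u (i + 1))
  last : G.Adj (u (l - 1)) (u 0)

/-- from some time `m` on the path `x` goes around a circuit for ever -/
def Trap (G : SimpleGraph V) (x : ℕ → V) : Prop :=
  ∃ (l : ℕ) (u : ℕ → V) (m : ℕ), IsCircuit G l u ∧ ∀ i, x (m + i) = u (i % l)

/-- the path `x` escapes to infinity -/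
def Esc (G : SimpleGraph V) (x : ℕ → V) : Prop :=
  Tendsto (fun n => G.dist (x n) (x 0)) atTop atTop

/-- `H` is a piece of `G` with retraction `π`: `π` maps all vertices to `H`, it fixes all vertices of `H`, and
it has the same value at both ends of every edge which is not inside `H`. (So `G` is obtained from the graph `G[H]`
by attaching disjoint graphs at single vertices of `H`.) -/
structure Piece (G : SimpleGraph V) (H : Set V) (π : V → V) : Prop where
  mem : ∀ x, π x ∈ H
  fix : ∀ x ∈ H, π x = x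
  edge : ∀ x y, G.Adj x y → π x = π y ∨ (x ∈ H ∧ y ∈ H)

/-- short circuits inside `H` near all vertices of `H`, and bounded degrees -/
def Dense (G : SimpleGraph V) [G.LocallyFinite] (H : Set V) : Prop :=
  ∃ D L : ℕ, ∀ x ∈ H, G.degree x ≤ D ∧ ∃ (l : ℕ) (u : ℕ → V), IsCircuit G l u ∧ l ≤ L ∧
    (∀ i < l, u i ∈ H) ∧ G.dist x (u 0) ≤ L

/-- `H` is a piece which is finite or has bounded degrees and short circuits near all of its vertices -/
def Tame (G : SimpleGraph V) [G.LocallyFinite] (H : Set V) : Prop :=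
  (∃ π, Piece G H π) ∧ (H.Finite ∨ Dense G H)

/-- paths which agree with `p` up to time `n` -/
def cyl (p : ℕ → V) (n : ℕ) : Set (ℕ → V) := {x | ∀ i ≤ n, x i = p i}

/-- `ν` is the law of the walk, a measure on the space of paths -/
structure IsLaw (G : SimpleGraph V) [G.LocallyFinite] (β : ℝ) (v : V) [MeasurableSpace V]
    (ν : Measure (ℕ → V)) : Prop where
  prob : IsProbabilityMeasure ν
  start : ∀ᵐ x ∂ν, x 0 = v
  step : ∀ (p : ℕ → V) (n : ℕ), ν (cyl p (n + 1)) =
    ν (cyl p n) * ENNReal.ofReal (pr G β p n (p (n + 1)))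

/-- the first `n` steps of `p` are along edges -/
def IsPath (G : SimpleGraph V) (p : ℕ → V) (n : ℕ) : Prop := ∀ i < n, G.Adj (p i) (p (i + 1))

/-- the edges of `G` inside `H` -/
def sub (G : SimpleGraph V) (H : Set V) : SimpleGraph V where
  Adj x y := G.Adj x y ∧ x ∈ H ∧ y ∈ H
  symm := ⟨fun _ _ h => ⟨h.1.symm, h.2.2, h.2.1⟩⟩
  loopless := ⟨fun _ h => h.1.ne rfl⟩

/-- there are nonbacktracking paths of every length in `H` which start with `x`, `w` -/
def Live (G : SimpleGraph V) (H : Set V) (x w : V) : Prop :=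
  ∀ n : ℕ, ∃ s : ℕ → V, s 0 = x ∧ s 1 = w ∧ (∀ i ≤ n, G.Adj (s i) (s (i + 1))) ∧ (∀ i ≤ n + 1, s i ∈ H) ∧
    ∀ i < n, s (i + 2) ≠ s i

/-- a step from `y` to `z` is a deviation from `nxt` -/
def Dev (S : Finset V) (nxt : V → V) (rel : V → V → Prop) (y z : V) : Prop :=
  y ∈ S ∧ rel y z ∧ z ≠ nxt y

/-- no deviation from time `n` on before the first visit to `E` after time `n` -/
def NoDev (S : Finset V) (nxt : V → V) (rel : V → V → Prop) (E : Set V) (n : ℕ) : Set (ℕ → V) :=
  {x | ∀ k, n ≤ k → (∀ j, n ≤ j → j ≤ k → x j ∉ E) → ¬ Dev S nxt rel (x k) (x (k + 1))}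

/-- the lower bound of the hazard lemma -/
noncomputable def dl (β : ℝ) (s D K : ℕ) : ℝ :=
  Real.exp (-(s * (D * Real.exp (β * K) / (1 - Real.exp (-β)))))

theorem dl_pos (β : ℝ) (s D K : ℕ) : 0 < dl β s D K := Real.exp_pos _

/-- the constant of the greedy lemma -/
def kA (a D : ℕ) : ℕ := (2 * a + 3) * (D + 1) + 1

/-- `x` is visited infinitely often -/
def Rec (x : V) (ω : ℕ → V) : Prop := ∀ N, ∃ n ≥ N, ω n = x

end Pool.Agent.Lib.MP_c171f5_pr.AM
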