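import Pool.Agent.Lib.MP_c171f5_pr.Mg.G002
import Pool.Agent.Lib.MP_c171f5_pr.Mg.G004
import Pool.Agent.Lib.MP_c171f5_pr.Mg.G005
import Pool.Agent.Lib.MP_c171f5_pr.Mg.G003

/-!
# TASK Main: assembly

`walk_exists`: `countable_of_connected`; `MeasurableSpace V := ⊤`; every vertex has a neighbour (`V` infinite, `G` connected); `Ω := ℕ → V`, `X n ω := ω n`, the measure of
`exists_law`. `walk_ae`: push forward (`isLaw_of_isWalk`), `ae_map_iff` (or `Measure.map` of a null set is null: for a set `{x | Q x}` which contains a.e. `x`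
for `μ.map f` the preimage contains a.e. `ω`: `Measurable.quasiMeasurePreserving`/`ae_of_ae_map`).
-/

set_option autoImplicit false

namespace Pool.Agent.Lib.MP_c171f5_pr.AM

open MeasureTheory Filter Set

universe u w

variable {V : Type u} [Infinite V] (G : SimpleGraph V) [G.LocallyFinite]

theorem walk_exists (hG : G.Connected) (β : ℝ) (v : V) :
    ∃ (Ω : Type u) (_ : MeasurableSpace Ω) (μ : Measure Ω) (X : ℕ → Ω → V), IsWalk G β v μ X := by
  classical
  have hcount : Countable V := countable_of_connected hG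
  let _ : MeasurableSpace V := ⊤
  have : DiscreteMeasurableSpace V := ⟨fun _ => trivial⟩
  have hnbr : ∀ x : V, ∃ y, G.Adj x y := by
    intro x
    obtain ⟨y, hy⟩ := exists_ne x
    exact hG.preconnected.exists_adj_of_nontrivial x
  obtain ⟨ν, hν⟩ := exists_law (G := G) β v hnbr
  refine ⟨ℕ → V, MeasurableSpace.pi, ν, fun n ω => ω n, hν.prob, ?_, hν.start, hν.step⟩
  intro n x
  exact (measurable_pi_apply (X := fun _ : ℕ => V) n) (MeasurableSet.singleton x)

omit [Infinite V] in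
theorem walk_ae [Countable V] [MeasurableSpace V] [DiscreteMeasurableSpace V] {β : ℝ} {v : V}
    {Ω : Type w} [MeasurableSpace Ω] {μ : Measure Ω} {X : ℕ → Ω → V} (hX : IsWalk G β v μ X)
    {Q : (ℕ → V) → Prop} (h : ∀ ν : Measure (ℕ → V), IsLaw G β v ν → ∀ᵐ x ∂ν, Q x) :
    ∀ᵐ ω ∂μ, Q (fun n => X n ω) := by
  obtain ⟨h1, h2⟩ := isLaw_of_isWalk hX
  exact ae_of_ae_map h2.aemeasurable (h _ h1)

theorem walk_main (hG : G.Connected) (β : ℝ) (hβ : 0 < β) (v : V) {Ω : Type w} [MeasurableSpace Ω]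
    (μ : Measure Ω) (X : ℕ → Ω → V) (hX : IsWalk G β v μ X) :
    ((∀ x y, G.Adj x y → ∃ H : Set V, x ∈ H ∧ y ∈ H ∧ Tame G H) →
      ∀ᵐ ω ∂μ, Trap G (fun n => X n ω) ∨ Esc G (fun n => X n ω)) ∧
    (Dense G univ → ∀ᵐ ω ∂μ, Trap G (fun n => X n ω)) ∧
    (QuasiTransitive G → (∃ l u, IsCircuit G l u) → ∀ᵐ ω ∂μ, Trap G (fun n => X n ω)) ∧
    ((∀ l u, ¬ IsCircuit G l u) → ∀ᵐ ω ∂μ, Esc G (fun n => X n ω)) ∧
    ∀ A : Set V, A.Finite → ∀ᵐ ω ∂μ, Trap G (fun n => X n ω) ∨ ∀ N, ∃ n ≥ N, X n ω ∉ A := by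
  classical
  have hcount : Countable V := countable_of_connected hG
  let _ : MeasurableSpace V := ⊤
  have : DiscreteMeasurableSpace V := ⟨fun _ => trivial⟩
  have hdense : Dense G univ → ∀ᵐ ω ∂μ, Trap G (fun n => X n ω) := by
    intro hD
    exact walk_ae G hX (Q := fun x => Trap G x)
      (fun ν hν => dense_trap hG hν hβ (conf hG hν hβ) hD)
  refine ⟨?_, hdense, ?_, ?_, ?_⟩
  · intro hall
    refine walk_ae G hX (Q := fun x => Trap G x ∨ Esc G x) (fun ν hν => ?_)
    filter_upwards [main_rec hG hν hβ hall] with x hx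
    rcases hx with hx | hx
    · exact Or.inl hx
    · exact Or.inr (esc_of_not_rec hG hx)
  · rintro hq ⟨l, u, hu⟩
    exact hdense (dense_of_qt hG hq hu)
  · intro hno
    refine walk_ae G hX (Q := fun x => Esc G x) (fun ν hν => ?_)
    filter_upwards [tree_rec hG hν hβ hno] with x hx
    exact esc_of_not_rec hG hx
  · intro A hA
    refine walk_ae G hX (Q := fun x => Trap G x ∨ ∀ N, ∃ n ≥ N, x n ∉ A) (fun ν hν => ?_)
    filter_upwards [conf hG hν hβ hA.toFinset] with x hx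
    rcases hx with hx | hx
    · exact Or.inl hx
    · refine Or.inr fun N => ?_
      obtain ⟨k, hk, hk2⟩ := hx N
      exact ⟨k, hk, fun h => hk2 (hA.mem_toFinset.2 h)⟩

end Pool.Agent.Lib.MP_c171f5_pr.AM
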